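import Pool.Agent.helper88.EF.Defs
import Pool.Agent.helper13.EF.DL
import Pool.Agent.helper23.EF.RS
import Pool.Agent.helper54.QR.GB
import Pool.Agent.helper58.QR.GA

/-! # Project EF: module CT (the test function of a cube) -/

set_option autoImplicit false

namespace Pool.Agent.helper88.EF

open Finset Pool.Agent.helper76.LP

section
variable {G : Type*} [CommGroup G]

theorem CT_le (Γ : ℕ → Subgroup G) (L : List ℕ) (p : ℕ) (hp : p ∈ L) : Γ p ≤ Pl Γ L := by
  induction L with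
  | nil => simp at hp
  | cons i L ih =>
    rcases List.mem_cons.1 hp with rfl | h
    · exact le_sup_left
    · exact (ih h).trans le_sup_right

theorem CT_indep (Γ : ℕ → Subgroup G) (L : List ℕ) (hnd : L.Nodup) (hI : Indep Γ L) (a : ℕ → G)
    (ha : ∀ p ∈ L, a p ∈ Γ p) (h : ∏ p ∈ L.toFinset, a p = 1) : ∀ p ∈ L, a p = 1 := by
  induction L with
  | nil => simp
  | cons i L ih =>
    have hi : i ∉ L.toFinset := by rw [List.mem_toFinset]; exact (List.nodup_cons.1 hnd).1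
    rw [List.toFinset_cons, Finset.prod_insert hi] at h
    have h1 : ∏ p ∈ L.toFinset, a p ∈ Pl Γ L := Subgroup.prod_mem _ fun p hp =>
      CT_le Γ L p (List.mem_toFinset.1 hp)
        (ha p (List.mem_cons_of_mem _ (List.mem_toFinset.1 hp)))
    have h2 : a i ∈ Pl Γ L := by
      have : a i = (∏ p ∈ L.toFinset, a p)⁻¹ := eq_inv_of_mul_eq_one_left h
      rw [this]; exact inv_mem h1
    have h3 : a i = 1 := Subgroup.disjoint_def.1 hI.1 (ha i List.mem_cons_self) h2
    rw [h3, one_mul] at h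
    intro p hp
    rcases List.mem_cons.1 hp with rfl | hp
    · exact h3
    · exact ih (List.nodup_cons.1 hnd).2 hI.2 (fun p hp => ha p (List.mem_cons_of_mem _ hp)) h p hp

theorem CT_comp (Γ : ℕ → Subgroup G) (q : ℕ) (L : List ℕ) (hnd : (q :: L).Nodup)
    (hI : Indep Γ (q :: L)) (ξ : G) (hξ : ξ ∈ Γ q) (c : ℕ → G) (hc : ∀ p ∈ L, c p ∈ Γ p)
    (h : ξ * ∏ p ∈ L.toFinset, c p = 1) : ∀ p ∈ L, c p = 1 := by
  have hq : q ∉ L := (List.nodup_cons.1 hnd).1
  have key := CT_indep Γ (q :: L) hnd hI (fun p => if p = q then ξ else c p) (by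
    intro p hp
    split_ifs with h1
    · rw [h1]; exact hξ
    · exact hc p ((List.mem_cons.1 hp).resolve_left h1)) (by
    rw [List.toFinset_cons, Finset.prod_insert (by rwa [List.mem_toFinset])]
    rw [if_pos rfl]
    rw [← h]
    congr 1
    refine Finset.prod_congr rfl fun p hp => ?_
    rw [if_neg]
    rintro rfl
    exact hq (List.mem_toFinset.1 hp))
  intro p hp
  have := key p (List.mem_cons_of_mem _ hp)
  rwa [if_neg] at this
  rintro rfl
  exact hq hp

/-- quotient of two cube products -/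
def CTc (v : ℕ → G) (S S' : Finset ℕ) (p : ℕ) : G :=
  (if p ∈ S then v p else 1) / (if p ∈ S' then v p else 1)

theorem CTc_prod (v : ℕ → G) (T S S' : Finset ℕ) (hS : S ⊆ T) (hS' : S' ⊆ T) :
    ∏ p ∈ T, CTc v S S' p = (∏ p ∈ S, v p) / ∏ p ∈ S', v p := by
  unfold CTc
  rw [Finset.prod_div_distrib, Finset.prod_ite_mem, Finset.prod_ite_mem,
    Finset.inter_eq_right.2 hS, Finset.inter_eq_right.2 hS']

theorem CTc_mem (Γ : ℕ → Subgroup G) (v : ℕ → G) (S S' : Finset ℕ) (p : ℕ) (hv : v p ∈ Γ p) :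
    CTc v S S' p ∈ Γ p := by
  unfold CTc
  refine div_mem ?_ ?_ <;> split_ifs <;> first | exact hv | exact one_mem _

/-- at most one subset -/
theorem CT_uniq (Γ : ℕ → Subgroup G) (q : ℕ) (L : List ℕ) (hnd : (q :: L).Nodup)
    (hI : Indep Γ (q :: L)) (v : ℕ → G) (hv : ∀ p ∈ L, v p ∈ Γ p) (hv1 : ∀ p ∈ L, v p ≠ 1)
    (S S' : Finset ℕ) (hS : S ⊆ L.toFinset) (hS' : S' ⊆ L.toFinset) (y : G)
    (h : y * (∏ p ∈ S, v p)⁻¹ ∈ Γ q) (h' : y * (∏ p ∈ S', v p)⁻¹ ∈ Γ q) : S = S' := by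
  have h1 := CT_comp Γ q L hnd hI
    ((y * (∏ p ∈ S, v p)⁻¹) / (y * (∏ p ∈ S', v p)⁻¹)) (div_mem h h')
    (CTc v S S') (fun p hp => CTc_mem Γ v S S' p (hv p hp)) (by
      rw [CTc_prod v _ S S' hS hS']
      rw [div_mul_div_comm, mul_assoc, inv_mul_cancel, mul_one, mul_assoc, inv_mul_cancel, mul_one,
        div_self'])
  ext p
  by_cases hp : p ∈ L
  · have h2 := h1 p hp
    unfold CTc at h2
    by_cases a : p ∈ S <;> by_cases b : p ∈ S' <;> simp [a, b] at h2 ⊢
    · exact hv1 p hp h2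
    · exact hv1 p hp h2
  · have ha : p ∉ S := fun a => hp (List.mem_toFinset.1 (hS a))
    have hb : p ∉ S' := fun a => hp (List.mem_toFinset.1 (hS' a))
    simp [ha, hb]

open Classical in
/-- signed indicator function of a cube -/
noncomputable def CTf (H : Subgroup G) (L : List ℕ) (v : ℕ → G) (z x : G) : ℤ :=
  ∑ S ∈ L.toFinset.powerset, (-1) ^ (S.card + L.length) *
    (if x * z⁻¹ * (∏ p ∈ S, v p)⁻¹ ∈ H then 1 else 0)

/-- the signed indicator has at most one nonzero term -/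
theorem CTf_val (Γ : ℕ → Subgroup G) (q : ℕ) (L : List ℕ) (hnd : (q :: L).Nodup)
    (hI : Indep Γ (q :: L)) (v : ℕ → G) (hv : ∀ p ∈ L, v p ∈ Γ p) (hv1 : ∀ p ∈ L, v p ≠ 1)
    (z x : G) (S : Finset ℕ) (hS : S ⊆ L.toFinset)
    (h : x * z⁻¹ * (∏ p ∈ S, v p)⁻¹ ∈ Γ q) :
    CTf (Γ q) L v z x = (-1) ^ (S.card + L.length) := by
  unfold CTf
  rw [Finset.sum_eq_single S]
  · rw [if_pos h, mul_one]
  · intro S' hS' hne
    rw [if_neg, mul_zero]
    intro h'
    exact hne (CT_uniq Γ q L hnd hI v hv hv1 S' S (Finset.mem_powerset.1 hS') hS _ h' h)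
  · intro h'
    exact absurd (Finset.mem_powerset.2 hS) h'

theorem CTf_zero (H : Subgroup G) (L : List ℕ) (v : ℕ → G) (z x : G)
    (h : ¬ ∃ S : Finset ℕ, S ⊆ L.toFinset ∧ x * z⁻¹ * (∏ p ∈ S, v p)⁻¹ ∈ H) :
    CTf H L v z x = 0 := by
  unfold CTf
  refine Finset.sum_eq_zero fun S hS => ?_
  rw [if_neg, mul_zero]
  intro h'
  exact h ⟨S, Finset.mem_powerset.1 hS, h'⟩

/-- the sums over the cosets vanish -/
theorem CTf_gsum [Fintype G] (Γ : ℕ → Subgroup G) (H : Subgroup G) (L : List ℕ)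
    (v : ℕ → G) (p : ℕ) (hp : p ∈ L) (hv : v p ∈ Γ p) (z x : G) :
    gsum (Γ p) (CTf H L v z) x = 0 := by
  classical
  set F : Finset ℕ → ℤ := fun S => ∑ w : G, if w ∈ Γ p then
    (if w * x * z⁻¹ * (∏ r ∈ S, v r)⁻¹ ∈ H then (1 : ℤ) else 0) else 0 with hF
  have h1 : gsum (Γ p) (CTf H L v z) x =
      ∑ S ∈ L.toFinset.powerset, (-1) ^ (S.card + L.length) * F S := by
    unfold gsum CTf
    simp only [hF, Finset.mul_sum]
    rw [Finset.sum_comm]
    refine Finset.sum_congr rfl fun w _ => ?_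
    by_cases hw : w ∈ Γ p
    · rw [if_pos hw]
      refine Finset.sum_congr rfl fun S _ => ?_
      rw [if_pos hw]
    · rw [if_neg hw]
      symm
      refine Finset.sum_eq_zero fun S _ => ?_
      rw [if_neg hw, mul_zero]
  have h2 : ∀ S : Finset ℕ, p ∉ S → F (insert p S) = F S := by
    intro S hS
    simp only [hF]
    rw [← Equiv.sum_comp (Equiv.mulLeft (v p))]
    refine Finset.sum_congr rfl fun w _ => ?_
    simp only [Equiv.coe_mulLeft, Finset.prod_insert hS]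
    have e1 : (v p * w ∈ Γ p) ↔ (w ∈ Γ p) := Subgroup.mul_mem_cancel_left _ hv
    have e2 : v p * w * x * z⁻¹ * (v p * ∏ r ∈ S, v r)⁻¹ = w * x * z⁻¹ * (∏ r ∈ S, v r)⁻¹ := by
      rw [mul_inv]
      calc v p * w * x * z⁻¹ * ((v p)⁻¹ * (∏ r ∈ S, v r)⁻¹)
          = (v p * (v p)⁻¹) * (w * x * z⁻¹ * (∏ r ∈ S, v r)⁻¹) := by
            simp only [mul_comm, mul_left_comm, mul_assoc]
        _ = _ := by rw [mul_inv_cancel, one_mul]
    rw [e2]
    by_cases hw : w ∈ Γ p
    · rw [if_pos hw, if_pos (e1.2 hw)]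
    · rw [if_neg hw, if_neg (fun h => hw (e1.1 h))]
  rw [h1]
  have hpf : p ∈ L.toFinset := List.mem_toFinset.2 hp
  rw [← Finset.insert_erase hpf, Finset.sum_powerset_insert (Finset.notMem_erase _ _),
    ← Finset.sum_add_distrib]
  refine Finset.sum_eq_zero fun S hS => ?_
  have hpS : p ∉ S := fun h => by
    have := Finset.mem_powerset.1 hS h
    simp at this
  rw [h2 S hpS, Finset.card_insert_of_notMem hpS]
  ring

/-- the sum of `f` against the signed indicator -/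
theorem CTf_sum [Fintype G] (Γ : ℕ → Subgroup G) (q : ℕ) (L : List ℕ) (hnd : (q :: L).Nodup)
    (v : ℕ → G) (hv : ∀ p ∈ L, v p ∈ Γ p) (z : G) (f : G → ℤ) (hf : MDv Γ (q :: L) f) :
    ∑ x, f x * CTf (Γ q) L v z x = (Nat.card (Γ q) : ℤ) * dl v L f z := by
  classical
  have hndL : L.Nodup := (List.nodup_cons.1 hnd).2
  have h0 : ∀ u ∈ Γ q, dl v L f (u * z) = dl v L f z := by
    intro u hu
    have h1 := dl_of_mdv Γ L _ (hf u hu) v hv z
    rw [DL_dl_lin] at h1
    linarith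
  have h1 : ∑ x, f x * CTf (Γ q) L v z x =
      ∑ S ∈ L.toFinset.powerset, (-1) ^ (S.card + L.length) *
        ∑ x : G, (if x ∈ Γ q then f (x * (∏ p ∈ S, v p) * z) else 0) := by
    unfold CTf
    simp only [Finset.mul_sum]
    rw [Finset.sum_comm]
    refine Finset.sum_congr rfl fun S _ => ?_
    rw [← Equiv.sum_comp (Equiv.mulRight ((∏ p ∈ S, v p) * z))]
    refine Finset.sum_congr rfl fun x _ => ?_
    have e0 : Equiv.mulRight ((∏ p ∈ S, v p) * z) x = x * ((∏ p ∈ S, v p) * z) := rfl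
    have e : Equiv.mulRight ((∏ p ∈ S, v p) * z) x * z⁻¹ * (∏ p ∈ S, v p)⁻¹ = x := by
      rw [e0]
      rw [mul_assoc x, mul_assoc x, mul_assoc (∏ p ∈ S, v p), mul_inv_cancel, mul_one,
        mul_inv_cancel, mul_one]
    have hiff : Equiv.mulRight ((∏ p ∈ S, v p) * z) x * z⁻¹ * (∏ p ∈ S, v p)⁻¹ ∈ Γ q ↔
        x ∈ Γ q := by rw [e]
    by_cases hx : x ∈ Γ q
    · rw [if_pos hx, if_pos (hiff.2 hx), e0, ← mul_assoc x]; ring
    · rw [if_neg hx, if_neg (fun h => hx (hiff.1 h))]; ring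
  rw [h1]
  simp only [Finset.mul_sum]
  rw [Finset.sum_comm]
  have h2 : ∀ x : G, ∑ S ∈ L.toFinset.powerset, (-1) ^ (S.card + L.length) *
      (if x ∈ Γ q then f (x * (∏ p ∈ S, v p) * z) else 0) =
      if x ∈ Γ q then dl v L f z else 0 := by
    intro x
    by_cases hx : x ∈ Γ q
    · simp only [if_pos hx]
      rw [← h0 x hx, dl_eq_sum v L hndL]
      refine Finset.sum_congr rfl fun S _ => ?_
      rw [← mul_assoc, mul_comm x]
    · simp only [if_neg hx, mul_zero, Finset.sum_const_zero]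
  rw [Finset.sum_congr rfl fun x _ => h2 x, ← Finset.sum_filter, Finset.sum_const, nsmul_eq_mul]
  congr 2
  rw [Nat.card_eq_fintype_card, Fintype.card_subtype]

end

/-- squares in `Gam D 2` are trivial -/
theorem CT_sq_two (D : ℕ) [NeZero D] (h2 : 2 ∣ D) (v : (ZMod D)ˣ) (hv : v ∈ Gam D 2) :
    v * v = 1 := by
  have h := card_Gam D 2 Nat.prime_two h2
  have h3 : Nat.card (Gam D 2) ∣ 2 := by
    rw [h]; split_ifs <;> simp
  have h5 : (⟨v, hv⟩ : Gam D 2) ^ 2 = 1 :=
    orderOf_dvd_iff_pow_eq_one.1 ((orderOf_dvd_natCard _).trans h3)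
  have h6 := congrArg Subtype.val h5
  simpa [pow_two] using h6

/-- the two brackets cannot occur together -/
theorem CT_neg (D q : ℕ) [NeZero D] (L : List ℕ) (hnd : (q :: L).Nodup)
    (hL : (q :: L).toFinset = D.primeFactors) (v : ℕ → (ZMod D)ˣ)
    (hv : ∀ p ∈ L, v p ∈ Gam D p)
    (h1 : (-1 : (ZMod D)ˣ) ∉ Pl (Gam D) (q :: L) ∨ ∃ p ∈ L, v p * v p ≠ 1)
    (S S' : Finset ℕ) (hS : S ⊆ L.toFinset) (hS' : S' ⊆ L.toFinset) (y : (ZMod D)ˣ)
    (h : y * (∏ p ∈ S, v p)⁻¹ ∈ Gam D q) (h' : -y * (∏ p ∈ S', v p)⁻¹ ∈ Gam D q) : False := by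
  have hmem : ∀ p ∈ q :: L, p ∈ D.primeFactors := fun p hp => by
    rw [← hL]; exact List.mem_toFinset.2 hp
  have hI : Indep (Gam D) (q :: L) := indep_Gam D (q :: L) hnd hmem
  set ξ : (ZMod D)ˣ := (-y * (∏ p ∈ S', v p)⁻¹) / (y * (∏ p ∈ S, v p)⁻¹) with hξ
  have hξm : ξ ∈ Gam D q := div_mem h' h
  have e1 : ξ * ∏ p ∈ L.toFinset, CTc v S' S p = -1 := by
    rw [CTc_prod v _ S' S hS' hS, hξ]
    have : ∀ a b : (ZMod D)ˣ, (-y * b⁻¹) / (y * a⁻¹) * (b / a) = -1 := by
      intro a b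
      rw [neg_mul, neg_div, neg_mul]
      congr 1
      rw [div_mul_div_comm, mul_assoc, inv_mul_cancel, mul_one, mul_assoc, inv_mul_cancel, mul_one,
        div_self']
    exact this _ _
  have hc : ∀ p ∈ L, CTc v S' S p ∈ Gam D p := fun p hp => CTc_mem (Gam D) v S' S p (hv p hp)
  rcases h1 with h1 | ⟨p, hp, h1⟩
  · apply h1
    rw [← e1]
    refine mul_mem (CT_le _ _ q List.mem_cons_self hξm) (Subgroup.prod_mem _ fun p hp => ?_)
    have hp := List.mem_toFinset.1 hp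
    exact CT_le _ _ p (List.mem_cons_of_mem _ hp) (hc p hp)
  · have e2 := CT_comp (Gam D) q L hnd hI (ξ ^ 2) (pow_mem hξm 2) (fun p => CTc v S' S p ^ 2)
      (fun p hp => pow_mem (hc p hp) 2) (by
        rw [Finset.prod_pow, ← mul_pow, e1]; simp)
    have e3 := e2 p hp
    have e4 : CTc v S' S p = 1 := by
      unfold CTc at e3 ⊢
      by_cases a : p ∈ S <;> by_cases b : p ∈ S' <;> simp [a, b, pow_two] at e3 ⊢
      · refine absurd ?_ h1
        rw [← inv_inj, mul_inv, inv_one]; exact e3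
      · exact absurd e3 h1
    have hpp : p.Prime := Nat.prime_of_mem_primeFactors (hmem p (List.mem_cons_of_mem _ hp))
    have hpD : p ∣ D := Nat.dvd_of_mem_primeFactors (hmem p (List.mem_cons_of_mem _ hp))
    have hp2 : p ≠ 2 := by
      rintro rfl
      exact h1 (CT_sq_two D hpD _ (hv 2 hp))
    have hdvd : ∀ r ∈ q :: L, r ≠ p → p ∣ D / r := by
      intro r hr hne
      have hr1 := hmem r hr
      have hrp : r.Prime := Nat.prime_of_mem_primeFactors hr1
      obtain ⟨k, hk⟩ := Nat.dvd_of_mem_primeFactors hr1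
      have hk2 : D / r = k := by rw [hk, Nat.mul_div_cancel_left _ hrp.pos]
      rw [hk2]
      have hcop : Nat.Coprime p r := (Nat.coprime_primes hpp hrp).2 (Ne.symm hne)
      apply hcop.dvd_of_dvd_mul_left
      rw [← hk]; exact hpD
    have hqp : q ≠ p := by
      rintro rfl
      exact (List.nodup_cons.1 hnd).1 hp
    have e5 := congrArg (ZMod.unitsMap hpD) e1
    rw [map_mul, map_prod, gam_one D q p hpD (hdvd q List.mem_cons_self hqp) ξ hξm, one_mul,
      Finset.prod_eq_one] at e5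
    · have e6 := congrArg Units.val e5
      rw [ZMod.unitsMap_def, Units.coe_map] at e6
      simp only [Units.val_one, Units.val_neg, MonoidHom.coe_coe, map_neg, map_one] at e6
      have e7 : ((2 : ℕ) : ZMod p) = 0 := by
        push_cast
        have : (1 : ZMod p) + 1 = 0 := by
          nth_rewrite 1 [e6]; ring
        rw [← this]; norm_num
      rw [ZMod.natCast_eq_zero_iff] at e7
      exact hp2 ((Nat.prime_dvd_prime_iff_eq hpp Nat.prime_two).1 e7)
    · intro r hr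
      have hr := List.mem_toFinset.1 hr
      by_cases hrp : r = p
      · rw [hrp, e4, map_one]
      · exact gam_one D r p hpD (hdvd r (List.mem_cons_of_mem _ hr) hrp) _ (hc r hr)

theorem cube_test (D q : ℕ) [NeZero D] (L : List ℕ) (hnd : (q :: L).Nodup)
    (hL : (q :: L).toFinset = D.primeFactors) (v : ℕ → (ZMod D)ˣ)
    (hv : ∀ p ∈ L, v p ∈ Gam D p) (hv1 : ∀ p ∈ L, v p ≠ 1)
    (h1 : (-1 : (ZMod D)ˣ) ∉ Pl (Gam D) (q :: L) ∨ ∃ p ∈ L, v p * v p ≠ 1) (z : (ZMod D)ˣ) :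
    ∃ ψ : (ZMod D)ˣ → ℤ, Tst D q ψ ∧ Cub D q L v z ψ ∧
      ∀ f : (ZMod D)ˣ → ℤ, (∀ x, f (-x) = - f x) → MDv (Gam D) (q :: L) f →
        ∑ x, f x * ψ x = 2 * (Nat.card (Gam D q) : ℤ) * dl v L f z := by
  have hmem : ∀ p ∈ q :: L, p ∈ D.primeFactors := fun p hp => by
    rw [← hL]; exact List.mem_toFinset.2 hp
  have hI : Indep (Gam D) (q :: L) := indep_Gam D (q :: L) hnd hmem
  refine ⟨fun x => CTf (Gam D q) L v z x - CTf (Gam D q) L v z (-x), ?_, ?_, ?_⟩
  · intro p hp hpq x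
    have hpL : p ∈ L := by
      rw [← hL, List.mem_toFinset] at hp
      exact (List.mem_cons.1 hp).resolve_left hpq
    have e1 := CTf_gsum (Gam D) (Gam D q) L v p hpL (hv p hpL) z x
    have e2 := CTf_gsum (Gam D) (Gam D q) L v p hpL (hv p hpL) z (-x)
    unfold gsum at e1 e2 ⊢
    have e3 := sub_eq_zero.2 (e1.trans e2.symm)
    rw [← Finset.sum_sub_distrib] at e3
    refine Eq.trans ?_ e3
    refine Finset.sum_congr rfl fun w _ => ?_
    rw [mul_neg]
    split_ifs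
    · rfl
    · rw [sub_zero]
  · intro x
    by_cases ha : ∃ S : Finset ℕ, S ⊆ L.toFinset ∧ x * z⁻¹ * (∏ p ∈ S, v p)⁻¹ ∈ Gam D q
    · obtain ⟨S, hS, hm⟩ := ha
      right
      refine ⟨false, S, x * z⁻¹ * (∏ p ∈ S, v p)⁻¹, hS, hm, ?_, ?_⟩
      · simp only [su, Bool.false_eq_true, if_false, one_mul]
        rw [inv_mul_cancel_right, inv_mul_cancel_right]
      · dsimp only
        rw [CTf_val (Gam D) q L hnd hI v hv hv1 z x S hS hm, CTf_zero]
        · simp [sg]
        · rintro ⟨S', hS', hm'⟩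
          rw [neg_mul x] at hm'
          exact CT_neg D q L hnd hL v hv h1 S S' hS hS' _ hm hm'
    · by_cases hb : ∃ S : Finset ℕ, S ⊆ L.toFinset ∧ -x * z⁻¹ * (∏ p ∈ S, v p)⁻¹ ∈ Gam D q
      · obtain ⟨S, hS, hm⟩ := hb
        right
        refine ⟨true, S, -x * z⁻¹ * (∏ p ∈ S, v p)⁻¹, hS, hm, ?_, ?_⟩
        · simp only [su, if_true]
          rw [inv_mul_cancel_right, inv_mul_cancel_right, neg_mul, one_mul, neg_neg]
        · dsimp only
          rw [CTf_zero _ _ _ _ _ ha, CTf_val (Gam D) q L hnd hI v hv hv1 z (-x) S hS hm]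
          simp [sg]
      · left
        dsimp only
        rw [CTf_zero _ _ _ _ _ ha, CTf_zero _ _ _ _ _ hb, sub_zero]
  · intro f hodd hf
    have e1 := CTf_sum (Gam D) q L hnd v hv z f hf
    have e2 : ∑ x, f x * CTf (Gam D q) L v z (-x) = - ∑ x, f x * CTf (Gam D q) L v z x := by
      rw [← Equiv.sum_comp (Equiv.neg (ZMod D)ˣ), ← Finset.sum_neg_distrib]
      refine Finset.sum_congr rfl fun x _ => ?_
      simp only [Equiv.neg_apply, neg_neg, hodd]
      ring
    simp only [mul_sub]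
    rw [Finset.sum_sub_distrib, e2, e1]
    ring

theorem CT_abs (D q : ℕ) [NeZero D] (L : List ℕ) (v : ℕ → (ZMod D)ˣ) (z : (ZMod D)ˣ)
    (ψ : (ZMod D)ˣ → ℤ) (hψ : Cub D q L v z ψ) (x : (ZMod D)ˣ) : |ψ x| ≤ 1 := by
  rcases hψ x with h | ⟨b, S, ξ, _, _, _, h⟩
  · rw [h]; simp
  · rw [h, abs_mul, abs_pow]
    cases b <;> simp [sg]

/-- bound 1 if there is no bad pair -/
theorem bd_one (D q : ℕ) [NeZero D] (L : List ℕ) (v : ℕ → (ZMod D)ˣ) (z : (ZMod D)ˣ)
    (ψ : (ZMod D)ˣ → ℤ) (hψ : Cub D q L v z ψ) (ev : Prop)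
    (hno : ev → Odd D → ∀ (b : Bool) (S S' : Finset ℕ) (ξ : (ZMod D)ˣ), S ⊆ L.toFinset →
      S' ⊆ L.toFinset → ξ ∈ Gam D q →
      (2 : ZMod D) * ((∏ p ∈ S, v p : (ZMod D)ˣ) : ZMod D) =
        ((su b * ξ * ∏ p ∈ S', v p : (ZMod D)ˣ) : ZMod D) →
      sg b * (-1) ^ (S.card + S'.card) = 1) : Bd D ev ψ 1 := by
  refine ⟨CT_abs D q L v z ψ hψ, ?_⟩
  intro hev hodd x x' hx
  rcases hψ x with h | ⟨b, S, ξ, hS, hξ, hx1, h⟩
  · rw [h, sub_zero]; exact CT_abs D q L v z ψ hψ x'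
  · rcases hψ x' with h' | ⟨b', S', ξ', hS', hξ', hx1', h'⟩
    · rw [h', zero_sub, abs_neg]; exact CT_abs D q L v z ψ hψ x
    · have key := hno hev hodd (xor b b') S S' (ξ' / ξ) hS hS' (div_mem hξ' hξ) (by
        rw [hx1, hx1'] at hx
        have hsu : ∀ b b' : Bool, (su (xor b b') : (ZMod D)ˣ) = su b * su b' := by
          intro b b'
          cases b <;> cases b' <;> simp [su]
        have hsq : ∀ b : Bool, (su b : (ZMod D)ˣ) * su b = 1 := by
          intro b
          cases b <;> simp [su]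
        rw [hsu]
        have e1 : (2 : ZMod D) * ((∏ p ∈ S, v p : (ZMod D)ˣ) : ZMod D) =
            (2 * ((su b * (ξ * (∏ p ∈ S, v p) * z) : (ZMod D)ˣ) : ZMod D)) *
              ((su b * (ξ * z)⁻¹ : (ZMod D)ˣ) : ZMod D) := by
          rw [mul_assoc, ← Units.val_mul]
          congr 2
          have : ∀ a : (ZMod D)ˣ, su b * (ξ * a * z) * (su b * (ξ * z)⁻¹) = a := by
            intro a
            calc su b * (ξ * a * z) * (su b * (ξ * z)⁻¹)
                = (su b * su b) * ((ξ * z) * (ξ * z)⁻¹) * a := by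
                  simp only [mul_comm, mul_left_comm, mul_assoc]
              _ = a := by rw [hsq, mul_inv_cancel, one_mul, one_mul]
          rw [this]
        rw [e1, ← hx, ← Units.val_mul]
        congr 1
        have : ∀ a : (ZMod D)ˣ, su b' * (ξ' * a * z) * (su b * (ξ * z)⁻¹) =
            su b * su b' * (ξ' / ξ) * a := by
          intro a
          calc su b' * (ξ' * a * z) * (su b * (ξ * z)⁻¹)
              = (z * z⁻¹) * (su b * su b' * (ξ' / ξ) * a) := by
                rw [div_eq_mul_inv, mul_inv]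
                simp only [mul_comm, mul_left_comm, mul_assoc]
            _ = _ := by rw [mul_inv_cancel, one_mul]
        rw [this])
      have hsg : ∀ b b' : Bool, sg (xor b b') = sg b * sg b' := by
        intro b b'
        cases b <;> cases b' <;> simp [sg]
      rw [hsg] at key
      have hs1 : ∀ b : Bool, sg b * sg b = 1 := by
        intro b
        cases b <;> simp [sg]
      have hm1 : ∀ n : ℕ, ((-1 : ℤ) ^ n) * (-1) ^ n = 1 := by
        intro n
        rw [← mul_pow]; simp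
      have e : ψ x' = ψ x := by
        rw [h, h', pow_add, pow_add]
        rw [pow_add] at key
        have k2 : sg b' * (-1) ^ S'.card = sg b * (-1) ^ S.card := by
          calc sg b' * (-1) ^ S'.card
              = (sg b * sg b) * ((-1) ^ S.card * (-1) ^ S.card) * (sg b' * (-1) ^ S'.card) := by
                rw [hs1, hm1]; ring
            _ = (sg b * sg b' * ((-1) ^ S.card * (-1) ^ S'.card)) * (sg b * (-1) ^ S.card) := by
                ring
            _ = _ := by rw [key, one_mul]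
        rw [← mul_assoc, k2, mul_assoc]
      rw [e, sub_self]
      simp

/-- trivial bound -/
theorem bd_two (D q : ℕ) [NeZero D] (L : List ℕ) (v : ℕ → (ZMod D)ˣ) (z : (ZMod D)ˣ)
    (ψ : (ZMod D)ˣ → ℤ) (hψ : Cub D q L v z ψ) (ev : Prop) : Bd D ev ψ 2 := by
  refine ⟨fun x => (CT_abs D q L v z ψ hψ x).trans (by norm_num), ?_⟩
  intro _ _ x x' _
  have h1 := abs_le.1 (CT_abs D q L v z ψ hψ x)
  have h2 := abs_le.1 (CT_abs D q L v z ψ hψ x')
  rw [abs_le]
  constructor <;> linarith [h1.1, h1.2, h2.1, h2.2]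

end Pool.Agent.helper88.EF
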